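import Pool.Agent.Run7.h694.Infl

/-!
Nonhamiltonian graphs of every girth `g` in which all but `O_g(n ^ (3/2))` of the missing edges
create a Hamilton cycle.
-/

namespace Pool.Agent.Results.MP_9b9498_co.AlmostMaximal

/-- For every `g ≥ 3` there is a constant `C` such that for every `N` there is a nonhamiltonian
graph of girth exactly `g` on `n ≥ N` vertices in which the number `b` of ordered pairs of distinct
nonadjacent vertices `u, v` for which adding the edge `uv` does not give a hamiltonian graph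
satisfies `b ^ 2 ≤ C * n ^ 3`. -/
theorem result (g : ℕ) (hg : 3 ≤ g) : ∃ C : ℕ, ∀ N : ℕ, ∃ (n : ℕ) (G : SimpleGraph (Fin n)),
    N ≤ n ∧ ¬ G.IsHamiltonian ∧ G.girth = g ∧
    (Nat.card {p : Fin n × Fin n // p.1 ≠ p.2 ∧ ¬ G.Adj p.1 p.2 ∧
      ¬ (G ⊔ SimpleGraph.edge p.1 p.2).IsHamiltonian}) ^ 2 ≤ C * n ^ 3 :=
  Run7.h694.Mnh.almost g hg

end Pool.Agent.Results.MP_9b9498_co.AlmostMaximal
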