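import Pool.Agent.Run7.h694.Cox

/-!
Maximally nonhamiltonian graphs of girth seven in which a positive proportion of the vertices
see no cycle at all within distance `h`, for every `h`.
-/

namespace Pool.Agent.Results.MP_9b9498_co.LocallyAcyclic

/-- For all `h` and `N` there is a maximally nonhamiltonian graph of girth exactly seven on
`n ≥ N` vertices such that for at least `n / 8 ^ (h + 2)` vertices `v` the subgraph induced on the
vertices at distance at most `h` from `v` is acyclic. -/
theorem result (h N : ℕ) : ∃ (n : ℕ) (G : SimpleGraph (Fin n)), N ≤ n ∧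
    ¬ G.IsHamiltonian ∧
    (∀ u v : Fin n, u ≠ v → ¬ G.Adj u v → (G ⊔ SimpleGraph.edge u v).IsHamiltonian) ∧
    G.girth = 7 ∧
    n ≤ 8 ^ (h + 2) *
      Nat.card {v : Fin n // (G.induce {w | G.edist v w ≤ (h : ℕ∞)}).IsAcyclic} :=
  Run7.h694.Mnh.family h N

end Pool.Agent.Results.MP_9b9498_co.LocallyAcyclic
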