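import Pool.Agent.Run7.h694.Cut

/-!
Edge cuts with at most three edges in maximally nonhamiltonian graphs.
-/

namespace Pool.Agent.Results.MP_9b9498_co.SmallCuts

/-- Let `G` be a maximally nonhamiltonian graph and `A` a set of vertices such that at most three
edges join `A` to its complement. Then `A` or its complement is a clique. -/
theorem result {V : Type} [Fintype V] [DecidableEq V] (G : SimpleGraph V)
    (hG : ¬ G.IsHamiltonian)
    (hmax : ∀ u v, u ≠ v → ¬ G.Adj u v → (G ⊔ SimpleGraph.edge u v).IsHamiltonian)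
    (A : Set V) (hA : Nat.card {p : V × V // p.1 ∈ A ∧ p.2 ∉ A ∧ G.Adj p.1 p.2} ≤ 3) :
    G.IsClique A ∨ G.IsClique Aᶜ :=
  Run7.h694.Mnh.cut_clique G hG hmax A hA

end Pool.Agent.Results.MP_9b9498_co.SmallCuts
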